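import Pool.Agent.KS6_60.BG.FGMax
import Pool.Agent.KS6_60.BG.Binary

/-! For every `n ≥ 2` there are a finitely generated branch group `G` on the `n`-regular rooted tree and
a finitely generated branch subgroup `H` of infinite index such that every maximal subgroup of `G`
containing `H` has finite index in `G`. -/

namespace Pool.Agent.Results.MP_9e467c_al.AllRegularTrees

open Equiv Pool.Agent.KS6_60.BG.Port Pool.Agent.KS6_60.BG.FG Pool.Agent.KS6_60.BG.Binary

/-- Automorphisms of the rooted tree of the words over the alphabet `X`: permutations of the words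
which preserve the length and the relation of being an initial segment. -/
def IsTreeAut {X : Type} (g : Perm (List X)) : Prop :=
  (∀ w, (g w).length = w.length) ∧ ∀ v w, g v <+: g w ↔ v <+: w

/-- The rigid stabiliser of the vertex `v` : the elements of `K` fixing every word outside the
subtree with root `v`. -/
def rist {X : Type} (K : Subgroup (Perm (List X))) (v : List X) : Set (Perm (List X)) :=
  {g | g ∈ K ∧ ∀ w, ¬ v <+: w → g w = w}

/-- The rigid stabiliser of level `n`. -/
def Rist {X : Type} (K : Subgroup (Perm (List X))) (n : ℕ) : Subgroup (Perm (List X)) :=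
  Subgroup.closure {g | ∃ v : List X, v.length = n ∧ g ∈ rist K v}

/-- Branch groups of automorphisms of the tree of the words over `X` (`relIndex` is the index of the
first group in the second one, with the value `0` for an infinite index). -/
def IsBranch {X : Type} (K : Subgroup (Perm (List X))) : Prop :=
  (∀ g ∈ K, IsTreeAut g) ∧ (∀ v w : List X, v.length = w.length → ∃ g ∈ K, g v = w) ∧
    ∀ n, (Rist K n).relIndex K ≠ 0

/-- `M` is a maximal subgroup of `G`. -/
def IsMaximalIn {A : Type} [Group A] (M G : Subgroup A) : Prop :=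
  M < G ∧ ∀ N : Subgroup A, M < N → N ≤ G → N = G

lemma isBranch_map {n : ℕ} [NeZero n] {K : Subgroup (WW n)} (hK : W.Nice K) :
    IsBranch (K.map W.toPerm) := by
  refine ⟨?_, ?_, ?_⟩
  · rintro _ ⟨g, _, rfl⟩
    refine ⟨fun w => g.act_length w, fun v w => ⟨fun h => ?_, fun h => g.act_prefix h⟩⟩
    have h1 := (g⁻¹).act_prefix (show g.act v <+: g.act w from h)
    rwa [W.act_inv_act, W.act_inv_act] at h1
  · intro v w hvw
    obtain ⟨k, hk, hkv⟩ := hK.transitive v w hvw
    exact ⟨_, ⟨k, hk, rfl⟩, hkv⟩
  · intro m h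
    have h1 : (W.RistW K m).map W.toPerm ≤ Rist (K.map W.toPerm) m := by
      unfold W.RistW
      rw [MonoidHom.map_closure]
      apply Subgroup.closure_mono
      rintro _ ⟨g, ⟨hg, v, hv, hw⟩, rfl⟩
      exact ⟨v, hv, ⟨g, hg, rfl⟩, hw⟩
    have h2 := Subgroup.relIndex_eq_zero_of_le_left h1 h
    rw [Subgroup.relIndex_map_map_of_injective _ _ W.toPerm_injective] at h2
    exact hK.rist m h2

lemma isBranch_map2 {K : Subgroup (W (ZMod 4))} (hK : W.Nice K) :
    IsBranch (K.map toPerm2) := by
  refine ⟨?_, ?_, ?_⟩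
  · rintro _ ⟨g, _, rfl⟩
    refine ⟨fun w => act2_length g w, fun v w => ⟨fun h => ?_, fun h => act2_prefix g h⟩⟩
    have h1 := act2_prefix g⁻¹ (show act2 g v <+: act2 g w from h)
    rwa [act2_inv_act2, act2_inv_act2] at h1
  · intro v w hvw
    obtain ⟨k, hk, hkv⟩ := transitive2 hK v w hvw
    exact ⟨_, ⟨k, hk, rfl⟩, hkv⟩
  · intro m h
    have h1 : (W.RistW K m).map toPerm2 ≤ Rist (K.map toPerm2) m := by
      unfold W.RistW
      rw [MonoidHom.map_closure]
      apply Subgroup.closure_mono
      rintro _ ⟨g, ⟨hg, u, hu, hw⟩, rfl⟩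
      refine ⟨(dec u).take u.length, ?_, ⟨g, hg, rfl⟩, fun w hw' => rigid2 hw w hw'⟩
      rw [List.length_take, dec_length]
      omega
    have h2 := Subgroup.relIndex_eq_zero_of_le_left h1 h
    rw [Subgroup.relIndex_map_map_of_injective _ _ toPerm2_injective] at h2
    exact hK.rist m h2

lemma fg_map {A B : Type} [Group A] [Group B] (f : A →* B) {K : Subgroup A} (h : K.FG) :
    (K.map f).FG := by
  rw [Subgroup.fg_iff] at h ⊢
  obtain ⟨S, rfl, hS⟩ := h
  exact ⟨f '' S, (MonoidHom.map_closure f S).symm, hS.image f⟩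

/-- the statement for a group of permutations containing a copy of the group of portraits -/
theorem transfer {n : ℕ} [NeZero n] [Fact (3 ≤ n)] {q : ℕ} [Fact q.Prime] (hq : q ∣ n) {X : Type}
    (f : WW n →* Perm (List X)) (hf : Function.Injective f)
    (hb : ∀ K : Subgroup (WW n), W.Nice K → IsBranch (K.map f)) :
    ∃ G H N : Subgroup (Perm (List X)),
      G.FG ∧ IsBranch G ∧ H.FG ∧ IsBranch H ∧ H ≤ N ∧ N ≤ G ∧
      H.relIndex G = 0 ∧ N.relIndex G = q ∧
      (∀ M : Subgroup (Perm (List X)), H ≤ M → M ≤ G → M ≤ N ∨ M.relIndex G ≠ 0) ∧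
      ∀ M : Subgroup (Perm (List X)), IsMaximalIn M G → H ≤ M → M.relIndex G ≠ 0 := by
  have hprime : q.Prime := Fact.out
  have hNG : ((G ⊓ kerChi hq).map f).relIndex (G.map f) = q := by
    rw [Subgroup.relIndex_map_map_of_injective _ _ hf]
    exact kerChi_index hq
  have hdi : ∀ M : Subgroup (Perm (List X)), (H hq).map f ≤ M → M ≤ G.map f →
      M ≤ (G ⊓ kerChi hq).map f ∨ M.relIndex (G.map f) ≠ 0 := by
    intro M hHM hMG
    have h1 : (M.comap f).map f = M :=
      Subgroup.map_comap_eq_self (hMG.trans (by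
        rintro _ ⟨g, _, rfl⟩
        exact ⟨g, rfl⟩))
    rw [← h1] at hMG hHM ⊢
    rw [Subgroup.map_le_map_iff_of_injective hf] at hMG hHM
    rw [Subgroup.relIndex_map_map_of_injective _ _ hf]
    rcases dichotomy hq hHM hMG with h | h
    · exact Or.inl (Subgroup.map_mono h)
    · exact Or.inr h
  refine ⟨G.map f, (H hq).map f, (G ⊓ kerChi hq).map f, fg_map _ fg, hb _ G_nice,
    fg_map _ fg, hb _ (H_nice hq), Subgroup.map_mono (H_le_ker hq), Subgroup.map_mono inf_le_left,
    ?_, hNG, hdi, ?_⟩
  · rw [Subgroup.relIndex_map_map_of_injective _ _ hf]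
    exact infinite_index hq
  · rintro M ⟨hMG, hmax⟩ hHM
    rcases hdi M hHM hMG.le with h | h
    · rcases eq_or_lt_of_le h with h2 | h2
      · rw [h2, hNG]
        exact hprime.ne_zero
      · have h3 := hmax _ h2 (Subgroup.map_mono inf_le_left)
        rw [h3, Subgroup.relIndex_self] at hNG
        exact absurd hNG.symm hprime.ne_one
    · exact h

/-- **The answer to Q1 is negative on every regular rooted tree.** For every `n ≥ 2` and every prime
divisor `q` of `n` there are a finitely generated branch group `G` on the `n`-regular rooted tree (of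
the words over `ZMod n`), a finitely generated branch subgroup `H` of infinite index in `G` and a
subgroup `N` of index `q` in `G` with `H ≤ N ≤ G`, such that every subgroup `M` with `H ≤ M ≤ G` is
contained in `N` or has finite index in `G`; in particular every maximal subgroup of `G` which
contains `H` has finite index in `G`. -/
theorem result : ∀ n : ℕ, 2 ≤ n → ∀ q : ℕ, q.Prime → q ∣ n →
    ∃ G H N : Subgroup (Perm (List (ZMod n))),
      G.FG ∧ IsBranch G ∧ H.FG ∧ IsBranch H ∧ H ≤ N ∧ N ≤ G ∧
      H.relIndex G = 0 ∧ N.relIndex G = q ∧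
      (∀ M : Subgroup (Perm (List (ZMod n))), H ≤ M → M ≤ G → M ≤ N ∨ M.relIndex G ≠ 0) ∧
      ∀ M : Subgroup (Perm (List (ZMod n))), IsMaximalIn M G → H ≤ M → M.relIndex G ≠ 0 := by
  intro n hn q hqp hqn
  have hq' : Fact q.Prime := ⟨hqp⟩
  rcases Nat.lt_or_ge 2 n with h3 | h3
  · have : NeZero n := ⟨by omega⟩
    have : Fact (3 ≤ n) := ⟨h3⟩
    exact transfer hqn W.toPerm W.toPerm_injective fun K hK => isBranch_map hK
  · obtain rfl : n = 2 := by omega
    have : Fact (3 ≤ 4) := ⟨by norm_num⟩
    exact transfer (n := 4) (hqn.trans (by norm_num)) toPerm2 toPerm2_injective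
      fun K hK => isBranch_map2 hK

end Pool.Agent.Results.MP_9e467c_al.AllRegularTrees
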